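import Pool.Agent.H41.TF.Final

/-!
# A subgroup of Thompson's group `F` that is not finitely generated and lies outside the perfect
kernel of `Sub(F)`
-/

set_option autoImplicit false

namespace Pool.Agent.Results.MP_3c843d_al.OutsidePerfectKernel

/-- A real number of the form `a / 2 ^ n`. -/
def IsDyadic (x : ℝ) : Prop := ∃ (a : ℤ) (n : ℕ), x = a / 2 ^ n

/-- An increasing bijection `g` of `[0, 1]` (an orientation preserving homeomorphism) is piecewise
linear with finitely many breakpoints, all of them dyadic, and with all slopes integer powers of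
two: there is a finite set `S` of dyadic numbers such that on every interval `[x, y]` with no point
of `S` in its interior, `g` is affine with slope `2 ^ k` for an integer `k`. -/
def IsThompson (g : Set.Icc (0 : ℝ) 1 ≃o Set.Icc (0 : ℝ) 1) : Prop :=
  ∃ S : Finset ℝ, (∀ s ∈ S, IsDyadic s) ∧
    ∀ x y : Set.Icc (0 : ℝ) 1, x < y → (∀ s ∈ S, ¬ (x.1 < s ∧ s < y.1)) →
      ∃ k : ℤ, ∀ z : Set.Icc (0 : ℝ) 1, x ≤ z → z ≤ y →
        (g z : ℝ) = (g x : ℝ) + (2 : ℝ) ^ k * (z.1 - x.1)

theorem isThompson_one : IsThompson 1 := Pool.Agent.H41.TF.ThompsonF.one_mem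

theorem isThompson_mul {g h : Set.Icc (0 : ℝ) 1 ≃o Set.Icc (0 : ℝ) 1} (hg : IsThompson g)
    (hh : IsThompson h) : IsThompson (g * h) :=
  Pool.Agent.H41.TF.ThompsonF.mul_mem (x := g) (y := h) hg hh

theorem isThompson_inv {g : Set.Icc (0 : ℝ) 1 ≃o Set.Icc (0 : ℝ) 1} (hg : IsThompson g) :
    IsThompson g⁻¹ :=
  Pool.Agent.H41.TF.ThompsonF.inv_mem (x := g) hg

/-- Thompson's group `F`: the group, under composition, of the increasing bijections of `[0, 1]`
which are piecewise linear with finitely many breakpoints, all of them dyadic, and with all slopes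
integer powers of two. -/
def ThompsonF : Subgroup (Set.Icc (0 : ℝ) 1 ≃o Set.Icc (0 : ℝ) 1) where
  carrier := {g | IsThompson g}
  one_mem' := isThompson_one
  mul_mem' := isThompson_mul
  inv_mem' := isThompson_inv

theorem eq_helper : ThompsonF = Pool.Agent.H41.TF.ThompsonF := rfl

/-- There are a subgroup `H` of Thompson's group `F` which is not finitely generated and finite
sets `A ⊆ H` and `B ⊆ F ∖ H` such that only countably many subgroups `K` of `F` satisfy `A ⊆ K`
and `K ∩ B = ∅`. -/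
theorem result :
    ∃ H : Subgroup ThompsonF, ¬ H.FG ∧
      ∃ A B : Finset ThompsonF, (∀ a ∈ A, a ∈ H) ∧ (∀ b ∈ B, b ∉ H) ∧
        {K : Subgroup ThompsonF | (∀ a ∈ A, a ∈ K) ∧ (∀ b ∈ B, b ∉ K)}.Countable := by
  classical
  obtain ⟨H, hHF, hfg, A, hA, b, hbF, hbH, hc⟩ := Pool.Agent.H41.TF.main
  have hmap : ∀ K : Subgroup ThompsonF, K.map ThompsonF.subtype ≤ ThompsonF := fun K => by
    rintro _ ⟨x, _, rfl⟩
    exact x.2
  refine ⟨H.subgroupOf ThompsonF, ?_, A.attach.image (fun a => ⟨a.1, hHF (hA a.1 a.2)⟩),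
    {⟨b, hbF⟩}, ?_, ?_, ?_⟩
  · intro h
    apply hfg
    have h1 := Pool.Agent.H41.TF.fg_map h ThompsonF.subtype
    have h2 : (H.subgroupOf ThompsonF).map ThompsonF.subtype = H :=
      Subgroup.map_subgroupOf_eq_of_le hHF
    rwa [h2] at h1
  · intro a ha
    obtain ⟨c, _, rfl⟩ := Finset.mem_image.1 ha
    exact hA c.1 c.2
  · intro c hc
    rw [Finset.mem_singleton] at hc
    subst hc
    exact hbH
  · refine Set.MapsTo.countable_of_injOn (f := fun K => K.map ThompsonF.subtype) ?_
      ((Subgroup.map_injective ThompsonF.subtype_injective).injOn) hc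
    rintro K ⟨h1, h2⟩
    refine ⟨hmap K, fun a ha => ?_, ?_⟩
    · exact ⟨⟨a, hHF (hA a ha)⟩, h1 _ (Finset.mem_image.2 ⟨⟨a, ha⟩, Finset.mem_attach _ _, rfl⟩),
        rfl⟩
    · rintro ⟨x, hx, h3⟩
      refine h2 ⟨b, hbF⟩ (Finset.mem_singleton_self _) ?_
      have h4 : x = ⟨b, hbF⟩ := Subtype.ext h3
      rwa [← h4]

end Pool.Agent.Results.MP_3c843d_al.OutsidePerfectKernel
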